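import Mathlib
import Pool.Agent.H402W.Defs

/-! The behaviour of the solution at the blow-up time. -/

set_option autoImplicit false

open Set MeasureTheory
open scoped RealInnerProductSpace

namespace Pool.Agent.H280R3.M6

open Pool.Agent.H402W

/-- Blow-up at the point `p` and the time `Ts`: no integrable function of time bounds the
Prodi-Serrin quantities `sup |u|²`, `‖u‖_q^(2q/(q-3))` (`q > 3`) and `‖∇u‖₂⁴`; all `L^q` norms with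
`q > 2` are unbounded; `u` is not Lipschitz in time with values in `L²`; `u` is bounded off every
ball about `p`. -/
structure Blo (p : V) (Ts : ℝ) (u : ℝ → V → V) : Prop where
  sup : ∀ g : ℝ → ℝ, IntegrableOn g (Ioo 0 Ts) → ∃ t, 0 ≤ t ∧ t < Ts ∧ ∃ x, g t < ‖u t x‖ ^ 2
  serrin : ∀ q : ℝ, 3 < q → ∀ g : ℝ → ℝ, IntegrableOn g (Ioo 0 Ts) →
    ∃ t, 0 ≤ t ∧ t < Ts ∧ g t < (∫ x, ‖u t x‖ ^ q) ^ (2 / (q - 3))
  lq : ∀ q : ℝ, 2 < q → ∀ C, ∃ t, 0 ≤ t ∧ t < Ts ∧ C < ∫ x, ‖u t x‖ ^ q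
  ens : ∀ g : ℝ → ℝ, IntegrableOn g (Ioo 0 Ts) → ∃ t, 0 ≤ t ∧ t < Ts ∧ g t < dir (u t) (u t) ^ 2
  lip : ∀ L, ∃ s t, 0 ≤ s ∧ s < t ∧ t < Ts ∧ L * (t - s) < Real.sqrt (ip (u t - u s) (u t - u s))
  away : ∀ δ > 0, ∃ C, ∀ t, 0 ≤ t → t < Ts → ∀ x, δ ≤ ‖x - p‖ → ‖u t x‖ ≤ C

end Pool.Agent.H280R3.M6
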