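import Mathlib
import Pool.Agent.H402W.Decay

/-! A tail estimate for the shell system, with an integral control of the strain minus the
viscosity. -/

set_option autoImplicit false

open Set Finset Filter Topology

namespace Pool.Agent.H402W.Shell

variable {g μ slo shi κh : ℕ → ℝ} {R T : ℝ} {a e σ κ : ℕ → ℝ → ℝ}
  (S : Shell g μ slo shi κh R T a e σ κ)

include S

/-- Tail estimate: if `2 (W_{n+1} - μ_{n+1}) ≤ h` and the primitive of `h ≥ 0` grows by at most `B`
then `e_n ≤ 2 η e^B`. -/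
theorem tailG {n : ℕ} (h0 : ∀ l, n < l → a l 0 = 0) {η : ℝ}
    (hη : ∀ K, ∑ l ∈ Ico (n + 1) (K + 1), (2 * R * shi l + 4 * κh l * w g R l) ≤ η)
    (hη' : ∀ K, ∑ l ∈ Ico (n + 1) (K + 1), κh l ≤ η)
    {Γ h : ℝ → ℝ} (hΓ : ∀ t ∈ Icc 0 T, HasDerivWithinAt Γ (h t) (Icc 0 T) t)
    (hh : ∀ t ∈ Icc 0 T, 0 ≤ h t)
    (hW : ∀ t ∈ Icc 0 T, 2 * (W g a (n + 1) t - μ (n + 1)) ≤ h t)
    (hμ : ∀ l, n + 1 ≤ l → μ (n + 1) ≤ μ l) {B : ℝ} (hB : Γ T - Γ 0 ≤ B)
    {t : ℝ} (htT : t ∈ Icc 0 T) : e n t ≤ 2 * η * Real.exp B := by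
  have hΓm : MonotoneOn Γ (Icc 0 T) := mono_of_deriv hΓ hh
  have h0T : (0 : ℝ) ∈ Icc 0 T := ⟨le_rfl, S.T_nonneg⟩
  have hTT : T ∈ Icc 0 T := ⟨S.T_nonneg, le_rfl⟩
  have hB0 : 0 ≤ B := by have := hΓm h0T hTT S.T_nonneg; linarith
  have hη0 : 0 ≤ η := by simpa using hη' n
  obtain ⟨C, hCdef⟩ : ∃ C, C = w g R (n + 1) + 1 := ⟨_, rfl⟩
  have hC0 : 0 ≤ C := by have := S.w_nonneg (n + 1); linarith
  have hinc : ∀ s ∈ Icc 0 T, ∀ t ∈ Icc 0 T, s ≤ t → Γ t - Γ s ≤ B := by
    intro s hs t ht _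
    have h1 := hΓm h0T hs hs.1
    have h2 := hΓm ht hTT ht.2
    linarith
  -- estimate for every ε
  have key : ∀ ε > 0, e n t ≤ (η + 4 * C * ε) * Real.exp B + η + ε := by
    intro ε hε
    obtain ⟨n0, hn0⟩ := S.e_lim ε hε
    obtain ⟨n1, hn1⟩ := S.W_lim ε hε
    set K := max n (max n0 n1) with hKdef
    have hnK : n ≤ K := le_max_left _ _
    have heK : ∀ t ∈ Icc 0 T, e K t ≤ ε :=
      hn0 K ((le_max_left _ _).trans (le_max_right _ _))
    have hWK : ∀ t ∈ Icc 0 T, e K t * |W g a (K + 1) t| ≤ ε :=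
      hn1 K ((le_max_right _ _).trans (le_max_right _ _))
    have hF : ∀ t ∈ Icc 0 T, HasDerivWithinAt (fun t => ∑ l ∈ Ico (n + 1) (K + 1), a l t ^ 2)
        (∑ l ∈ Ico (n + 1) (K + 1), (2 * a l t ^ 1 *
          ((W g a l t - μ l) * a l t - g l * e l t + σ l t))) (Icc 0 T) t := by
      intro t ht
      refine HasDerivWithinAt.fun_sum fun l _ => ?_
      have := (S.deriv l t ht).fun_pow 2
      simpa using this
    have hle : ∀ t ∈ Icc 0 T, (∑ l ∈ Ico (n + 1) (K + 1), (2 * a l t ^ 1 *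
          ((W g a l t - μ l) * a l t - g l * e l t + σ l t)))
          ≤ h t * (∑ l ∈ Ico (n + 1) (K + 1), a l t ^ 2) + (η + 4 * C * ε) := by
      intro t htT
      have hflux := S.flux hnK htT
      have h1 : (∑ l ∈ Ico (n + 1) (K + 1), (2 * a l t ^ 1 *
          ((W g a l t - μ l) * a l t - g l * e l t + σ l t)))
          = 2 * (∑ l ∈ Ico (n + 1) (K + 1), (W g a l t * a l t ^ 2 - g l * a l t * e l t))
            + ∑ l ∈ Ico (n + 1) (K + 1), (2 * (σ l t * a l t - μ l * a l t ^ 2)) := by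
        rw [mul_sum, ← sum_add_distrib]
        refine sum_congr rfl fun l _ => ?_
        ring
      rw [h1, hflux]
      have h2 : - (2 * (e K t * (W g a (K + 1) t - W g a (n + 1) t))) ≤ 4 * C * ε := by
        have h3 := hWK t htT
        have h4 := abs_le.mp (S.abs_W_le (n + 1) htT)
        have h5 := heK t htT
        have h6 := S.e_nonneg K t htT
        have h7 : -(e K t * W g a (K + 1) t) ≤ ε := by
          have h8 : -(W g a (K + 1) t) ≤ |W g a (K + 1) t| := neg_le_abs _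
          have h9 := mul_le_mul_of_nonneg_left h8 h6
          linarith
        have h10 : e K t * W g a (n + 1) t ≤ ε * w g R (n + 1) :=
          (mul_le_mul_of_nonneg_left h4.2 h6).trans
            (mul_le_mul_of_nonneg_right h5 (S.w_nonneg (n + 1)))
        have h11 := mul_nonneg hε.le (S.w_nonneg (n + 1))
        rw [hCdef]
        nlinarith
      have h3 : 2 * (W g a (n + 1) t * ∑ l ∈ Ico (n + 1) (K + 1), a l t ^ 2)
          - (2 * ∑ l ∈ Ico (n + 1) (K + 1), κ l t * (W g a l t - W g a (n + 1) t))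
          + ∑ l ∈ Ico (n + 1) (K + 1), (2 * (σ l t * a l t - μ l * a l t ^ 2))
          ≤ h t * (∑ l ∈ Ico (n + 1) (K + 1), a l t ^ 2) + η := by
        have hsum : h t * (∑ l ∈ Ico (n + 1) (K + 1), a l t ^ 2)
            + ∑ l ∈ Ico (n + 1) (K + 1), (2 * R * shi l + 4 * κh l * w g R l)
            ≤ h t * (∑ l ∈ Ico (n + 1) (K + 1), a l t ^ 2) + η := by
          linarith [hη K]
        refine le_trans ?_ hsum
        rw [mul_sum, mul_sum, mul_sum, mul_sum, ← sum_sub_distrib, ← sum_add_distrib,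
          ← sum_add_distrib]
        refine sum_le_sum fun l hl => ?_
        have hl1 : n + 1 ≤ l := (Finset.mem_Ico.mp hl).1
        have h4 := abs_le.mp (S.abs_W_le l htT)
        have h5 := abs_le.mp (S.abs_W_le (n + 1) htT)
        have h6 := S.w_mono (hl1)
        have h7 := S.κ_nonneg l t htT
        have h8 := S.κ_hi l t htT
        have h9 := S.w_nonneg l
        have h10 : - (2 * (κ l t * (W g a l t - W g a (n + 1) t))) ≤ 4 * κh l * w g R l := by
          have h11 : -(2 * w g R l) ≤ W g a l t - W g a (n + 1) t := by linarith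
          have h12 : κ l t * w g R l ≤ κh l * w g R l := mul_le_mul_of_nonneg_right h8 h9
          nlinarith
        have h11 : 2 * (W g a (n + 1) t * a l t ^ 2) + 2 * (σ l t * a l t - μ l * a l t ^ 2)
            ≤ h t * a l t ^ 2 + 2 * R * shi l := by
          have h12 := abs_le.mp (S.a_bdd l t htT)
          have h13 : 0 ≤ σ l t := (S.slo_pos l).le.trans (S.σ_lo l t htT)
          have h14 := S.σ_hi l t htT
          have h15 : 2 * (W g a (n + 1) t - μ l) * a l t ^ 2 ≤ h t * a l t ^ 2 :=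
            mul_le_mul_of_nonneg_right (by linarith [hW t htT, hμ l hl1]) (sq_nonneg _)
          have h16 : σ l t * a l t ≤ σ l t * R := mul_le_mul_of_nonneg_left h12.2 h13
          have h17 : σ l t * R ≤ shi l * R :=
            mul_le_mul_of_nonneg_right h14 (by linarith [S.R_ge])
          linarith
        linarith
      linarith
    have hg := gronwall_upper (f := fun t => ∑ l ∈ Ico (n + 1) (K + 1), a l t ^ 2)
      (h := η + 4 * C * ε) (B := B) (by positivity) hF hΓ hle hinc htT (by positivity)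
    simp only [sub_zero] at hg
    have h0' : ∑ l ∈ Ico (n + 1) (K + 1), a l 0 ^ 2 = 0 := by
      refine sum_eq_zero fun l hl => ?_
      rw [h0 l (by have := (Finset.mem_Ico.mp hl).1; omega)]
      norm_num
    rw [h0', zero_add] at hg
    have hg2 : ∑ l ∈ Ico (n + 1) (K + 1), a l t ^ 2 ≤ (η + 4 * C * ε) * Real.exp B := by
      refine hg.trans ?_
      refine mul_le_mul_of_nonneg_right ?_ (Real.exp_pos _).le
      refine mul_le_of_le_one_right (by positivity) ?_
      exact htT.2.trans S.T_le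
    rw [S.tail_split hnK htT]
    have hk : ∑ l ∈ Ico (n + 1) (K + 1), κ l t ≤ η :=
      (sum_le_sum fun l _ => S.κ_hi l t htT).trans (hη' K)
    have := heK t htT
    linarith
  have hlim : e n t ≤ η * Real.exp B + η := by
    refine le_of_forall_pos_le_add fun δ hδ => ?_
    have hden : 0 < 4 * C * Real.exp B + 1 := by positivity
    have h1 := key (δ / (4 * C * Real.exp B + 1)) (by positivity)
    have h2 : (η + 4 * C * (δ / (4 * C * Real.exp B + 1))) * Real.exp B + η
        + δ / (4 * C * Real.exp B + 1) = η * Real.exp B + η + δ := by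
      field_simp
      ring
    linarith
  have h1 : (1 : ℝ) ≤ Real.exp B := Real.one_le_exp hB0
  nlinarith

/-- The same with an integrable majorant `h` of `2 (W_{n+1} - μ_{n+1})`. -/
theorem tailI {n : ℕ} (h0 : ∀ l, n < l → a l 0 = 0) {η : ℝ}
    (hη : ∀ K, ∑ l ∈ Ico (n + 1) (K + 1), (2 * R * shi l + 4 * κh l * w g R l) ≤ η)
    (hη' : ∀ K, ∑ l ∈ Ico (n + 1) (K + 1), κh l ≤ η)
    {h : ℝ → ℝ} (hi : MeasureTheory.IntegrableOn h (Ioc 0 T)) (hh : ∀ t ∈ Icc 0 T, 0 ≤ h t)
    (hW : ∀ t ∈ Icc 0 T, 2 * (W g a (n + 1) t - μ (n + 1)) ≤ h t)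
    (hμ : ∀ l, n + 1 ≤ l → μ (n + 1) ≤ μ l) {B : ℝ} (hB : ∫ t in (0)..T, h t ≤ B)
    {t : ℝ} (htT : t ∈ Icc 0 T) : e n t ≤ 2 * η * Real.exp B := by
  set f : ℝ → ℝ := fun t => max (2 * (W g a (n + 1) t - μ (n + 1))) 0 with hf
  have hWc : ContinuousOn (fun t => W g a (n + 1) t) (Icc 0 T) := by
    unfold W
    exact continuousOn_finsetSum _ fun m _ => (S.cont m).const_smul (g m)
  have hfc : ContinuousOn f (Icc 0 T) :=
    ContinuousOn.sup ((hWc.sub continuousOn_const).const_smul (2 : ℝ)) continuousOn_const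
  obtain ⟨Γ, hΓ0, hΓ⟩ := exists_primitive S.T_nonneg hfc
  have hfi : IntervalIntegrable f MeasureTheory.volume 0 T := by
    apply ContinuousOn.intervalIntegrable
    rwa [uIcc_of_le S.T_nonneg]
  have hftc : ∫ t in (0)..T, f t = Γ T - Γ 0 := by
    refine intervalIntegral.integral_eq_sub_of_hasDeriv_right_of_le S.T_nonneg
      (fun t ht => (hΓ t ht).continuousWithinAt) (fun t ht => ?_) hfi
    exact ((hΓ t ⟨ht.1.le, ht.2.le⟩).mono_of_mem_nhdsWithin
      (mem_nhdsWithin_of_mem_nhds (Icc_mem_nhds ht.1 ht.2)))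
  have hhi : IntervalIntegrable h MeasureTheory.volume 0 T :=
    (intervalIntegrable_iff_integrableOn_Ioc_of_le S.T_nonneg).2 hi
  have hle : ∫ t in (0)..T, f t ≤ ∫ t in (0)..T, h t :=
    intervalIntegral.integral_mono_on S.T_nonneg hfi hhi fun t ht => max_le (hW t ht) (hh t ht)
  exact S.tailG h0 hη hη' hΓ (fun t _ => le_max_right _ _) (fun t _ => le_max_left _ _) hμ
    (B := B) (by rw [← hftc]; linarith) htT

end Pool.Agent.H402W.Shell
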