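import Mathlib
import Pool.Agent.H402W.Lq
import Pool.Agent.H280R3.M6.Tail

/-! Integral blow-up criteria (Prodi-Serrin norms) for the maximal solution. -/

set_option autoImplicit false

open Set MeasureTheory Filter Topology Finset
open scoped RealInnerProductSpace ContDiff

namespace Pool.Agent.H280R3.M6

open Pool.Agent.H402W

variable {φ ρ ψ : V → V} {x₁ : V} {ν T lam R c0 : ℝ} {vd : V → V} {ks Ns : ℕ}

/-- the strain minus the viscosity has no integrable majorant, uniformly in the scale -/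
theorem no_majorant (G : Good φ ρ ψ x₁ ν T lam R c0 vd ks Ns) {Ts : ℝ} {u : ℝ → V → V}
    (hTsT : Ts ≤ T)
    (hsol : ∀ T', 0 ≤ T' → T' < Ts → GSol ν (Fam φ ψ ρ (MM lam) (EE lam)) vd T' u)
    (hbl : ∀ n₀, ∃ t, 0 ≤ t ∧ t < Ts ∧ ∃ n ≥ n₀, muu (ν * dir φ φ / ip φ φ) lam n <
        W (gg (-hf φ φ / ip φ φ) lam) (fun n t => af φ (MM lam) (u t) n) n t)
    {h : ℝ → ℝ} (hi : IntegrableOn h (Ioo 0 Ts)) (hh : ∀ t ∈ Ico 0 Ts, 0 ≤ h t)
    (hW : ∀ n, ∀ t ∈ Ico 0 Ts, 2 * (W (gg (-hf φ φ / ip φ φ) lam)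
      (fun n t => af φ (MM lam) (u t) n) n t - muu (ν * dir φ φ / ip φ φ) lam n) ≤ h t) :
    False := by
  have hF := φ_pos G.P
  have hq : 0 < -hf φ φ := by linarith [G.P.q_pos]
  have hβ : 0 < -hf ρ ρ := by linarith [G.P.β_pos]
  have hA := dir_φ_pos G.P
  have hν := G.ν_pos
  have hc0 := G.c_ne
  have hc02 : 0 < c0 ^ 2 := by positivity
  have hR := G.R_ge
  set Cη := Ceta (-hf φ φ / ip φ φ) R (9 * c0 ^ 2 * -hf ρ ρ / (4 * ip φ φ))
    (9 * c0 ^ 2 * -hf ρ ρ / (4 * -hf φ φ)) with hCη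
  have hCη0 : 0 ≤ Cη := by rw [hCη]; unfold Ceta; positivity
  set K5 := ∑' n, MM lam n ^ 5 * bb lam n with hK5
  have hbt : ∀ n, 0 ≤ MM lam n ^ 5 * bb lam n := fun n => by
    have := MM_pos lam n; have := bb_pos lam n; positivity
  have hK50 : 0 ≤ K5 := tsum_nonneg hbt
  have hK5' : ∀ n, MM lam n ^ 5 * bb lam n ≤ K5 := fun n =>
    (bb_summable G.one 5).le_tsum n (fun j _ => hbt j)
  set I := ∫ t in Ioo 0 Ts, h t with hI
  set X := 4 * Cη * K5 * Real.exp I with hX
  have hX0 : 0 ≤ X := by positivity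
  set N := ks + 1 with hN
  have hbN := bb_pos lam N
  set A := Real.sqrt X + R / bb lam N with hAdef
  have hs0 := Real.sqrt_nonneg X
  have hRb : 0 ≤ R / bb lam N := by positivity
  have hA0 : 0 ≤ A := by positivity
  have hcoef : ∀ t ∈ Ico 0 Ts, ∀ n, |af φ (MM lam) (u t) n| ≤ A * bb lam n := by
    intro t ht n
    have hu := hsol t ht.1 ht.2
    have hsh := G.shell t u ht.1 (ht.2.le.trans hTsT) hu
    have htt : t ∈ Icc 0 t := ⟨ht.1, le_rfl⟩
    have hmem : ∀ s ∈ Icc 0 t, s ∈ Ico 0 Ts := fun s hs => ⟨hs.1, hs.2.trans_lt ht.2⟩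
    have hbn := bb_pos lam n
    rcases Nat.lt_or_ge n (N + 1) with hn | hn
    · have h1 := hsh.a_bdd n t htt
      have h2 : bb lam N ≤ bb lam n := bb_anti (by linarith [G.one]) (by omega)
      have h3 : R ≤ R / bb lam N * bb lam n := by
        rw [div_mul_eq_mul_div, le_div_iff₀ hbN]
        exact mul_le_mul_of_nonneg_left h2 (by linarith)
      have h4 : 0 ≤ Real.sqrt X * bb lam n := by positivity
      calc |af φ (MM lam) (u t) n| ≤ R := h1
        _ ≤ R / bb lam N * bb lam n := h3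
        _ ≤ A * bb lam n := by rw [hAdef, add_mul]; linarith
    · obtain ⟨m, rfl⟩ : ∃ m, n = m + 1 := ⟨n - 1, by omega⟩
      have hsub : Ioc 0 t ⊆ Ioo 0 Ts := fun s hs' => ⟨hs'.1, hs'.2.trans_lt ht.2⟩
      have h1 := hsh.tailI (n := m) (fun l hl => by
          show af φ (MM lam) (u 0) l = 0
          rw [hu.init]; exact G.az l (by omega)) (G.par.hη m) (G.par.hη' m)
          (h := h) (B := I) (hi.mono_set hsub) (fun s hs => hh s (hmem s hs))
          (fun s hs => hW (m + 1) s (hmem s hs))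
          (fun l hl => by
            unfold muu
            refine mul_le_mul_of_nonneg_left (Real.exp_le_exp.mpr ?_) (by positivity)
            have := LL_mono (by linarith [G.one] : (0 : ℝ) ≤ lam) hl
            linarith) (by
            rw [intervalIntegral.integral_of_le ht.1]
            refine setIntegral_mono_set hi ?_ (LE.le.eventuallyLE hsub)
            filter_upwards [self_mem_ae_restrict measurableSet_Ioo] with s hs'
            exact hh s ⟨hs'.1.le, hs'.2⟩) htt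
      have h2 := hsh.rec_e m t htt
      have h3 := hsh.κ_nonneg (m + 1) t htt
      have h4 := hsh.e_nonneg (m + 1) t htt
      have h5 : af φ (MM lam) (u t) (m + 1) ^ 2 ≤ X * bb lam (m + 1) ^ 2 := by
        have h6 : af φ (MM lam) (u t) (m + 1) ^ 2 ≤ 2 * etaa Cη lam m * Real.exp I := by
          have : af φ (MM lam) (u t) (m + 1) ^ 2 ≤ tt φ ψ ρ (MM lam) (EE lam) (u t) (m + 1) / -hf φ φ := by
            have h7 : (fun n t => af φ (MM lam) (u t) n) (m + 1) t ^ 2
              = af φ (MM lam) (u t) (m + 1) ^ 2 := rfl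
            rw [h7] at h2
            linarith
          exact this.trans h1
        refine h6.trans ?_
        unfold etaa
        have h8 : Real.exp (5 / 2 * LL lam (m + 1)) = MM lam (m + 1) ^ 5 := by
          rw [MM_pow]; congr 1; push_cast; ring
        rw [h8, EE_eq]
        have h9 : MM lam (m + 1) ^ 5 * bb lam (m + 1) ^ 4 ≤ K5 * bb lam (m + 1) ^ 2 := by
          have h10 : bb lam (m + 1) ^ 3 ≤ bb lam (m + 1) ^ 2 :=
            pow_le_pow_of_le_one hbn.le (bb_le_one lam _) (by norm_num)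
          calc MM lam (m + 1) ^ 5 * bb lam (m + 1) ^ 4
              = (MM lam (m + 1) ^ 5 * bb lam (m + 1)) * bb lam (m + 1) ^ 3 := by ring
            _ ≤ K5 * bb lam (m + 1) ^ 2 :=
                mul_le_mul (hK5' (m + 1)) h10 (by positivity) hK50
        calc 2 * (2 * Cη * (MM lam (m + 1) ^ 5 * bb lam (m + 1) ^ 4)) * Real.exp I
            ≤ 2 * (2 * Cη * (K5 * bb lam (m + 1) ^ 2)) * Real.exp I := by
              refine mul_le_mul_of_nonneg_right ?_ (Real.exp_pos _).le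
              exact mul_le_mul_of_nonneg_left (mul_le_mul_of_nonneg_left h9 (by positivity))
                (by norm_num)
          _ = X * bb lam (m + 1) ^ 2 := by rw [hX]; ring
      have h6 : |af φ (MM lam) (u t) (m + 1)| ≤ Real.sqrt X * bb lam (m + 1) := by
        refine abs_le_of_sq_le_sq ?_ (by positivity)
        rw [mul_pow, Real.sq_sqrt hX0]
        exact h5
      have h7 : 0 ≤ (R / bb lam N) * bb lam (m + 1) := by positivity
      rw [hAdef, add_mul]
      linarith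
  set γ := -hf φ φ / ip φ φ with hγ
  have hγ0 : 0 < γ := by positivity
  have hWb : ∀ t ∈ Ico 0 Ts, ∀ n, W (gg γ lam) (fun n t => af φ (MM lam) (u t) n) n t
      ≤ γ * A * K5 := by
    intro t ht n
    unfold W
    have h1 : ∀ m ∈ range n, gg γ lam m * af φ (MM lam) (u t) m
        ≤ γ * A * (MM lam m ^ 5 * bb lam m) := by
      intro m _
      have h2 := (le_abs_self _).trans (hcoef t ht m)
      have hMm := MM_pos lam m
      have h4 : gg γ lam m = γ * MM lam m ^ 5 := by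
        unfold gg; rw [MM_pow]; congr 2; push_cast; ring
      rw [h4]
      calc γ * MM lam m ^ 5 * af φ (MM lam) (u t) m ≤ γ * MM lam m ^ 5 * (A * bb lam m) :=
            mul_le_mul_of_nonneg_left h2 (by positivity)
        _ = _ := by ring
    refine (Finset.sum_le_sum h1).trans ?_
    rw [← Finset.mul_sum]
    exact mul_le_mul_of_nonneg_left ((bb_summable G.one 5).sum_le_tsum _ fun j _ => hbt j)
      (by positivity)
  set m₀ := ν * dir φ φ / ip φ φ with hm₀
  have hm₀0 : 0 < m₀ := by positivity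
  obtain ⟨n₀, hn₀⟩ := eventually_atTop.mp
    ((LL_tendsto G.one).eventually_ge_atTop (γ * A * K5 / m₀))
  obtain ⟨t, ht0, ht, n, hn, hlt⟩ := hbl n₀
  have h1 := hWb t ⟨ht0, ht⟩ n
  have h2 := hn₀ n hn
  rw [div_le_iff₀ hm₀0] at h2
  have h3 := Real.add_one_le_exp (2 * LL lam n)
  have h4 : 0 ≤ LL lam n := by linarith [LL_ge (by linarith [G.one] : 0 ≤ lam) n, G.one]
  have h5 : LL lam n * m₀ ≤ muu m₀ lam n := by
    unfold muu
    rw [mul_comm]
    exact mul_le_mul_of_nonneg_left (by linarith) hm₀0.le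
  linarith

/-- Young's inequality for the strain -/
theorem strain_le (G : Good φ ρ ψ x₁ ν T lam R c0 vd ks Ns) {s K : ℝ} (hs1 : 1 < s) (hs5 : s < 5)
    (hK : 0 ≤ K) : ∃ C, 0 ≤ C ∧ ∀ (u : ℝ → V → V) (t U : ℝ), 0 ≤ U →
      (∀ m, |af φ (MM lam) (u t) m| ≤ K * U * Real.exp (-(s / 2 * LL lam m))) →
      ∀ n, 2 * (W (gg (-hf φ φ / ip φ φ) lam) (fun n t => af φ (MM lam) (u t) n) n t
        - muu (ν * dir φ φ / ip φ φ) lam n) ≤ C * U ^ (4 / (s - 1)) := by
  have hF := φ_pos G.P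
  have hq : 0 < -hf φ φ := by linarith [G.P.q_pos]
  have hA' := dir_φ_pos G.P
  have hν := G.ν_pos
  have hlam := G.one
  set γ := -hf φ φ / ip φ φ with hγ
  have hγ0 : 0 < γ := by positivity
  set m₀ := ν * dir φ φ / ip φ φ with hm₀
  have hm₀0 : 0 < m₀ := by positivity
  set θ := (5 - s) / 2 with hθ
  have hθ0 : 0 < θ := by rw [hθ]; linarith
  have hθ2 : 0 < 2 - θ := by rw [hθ]; linarith
  set A := γ * K * (30 / θ) with hA
  have hA0 : 0 ≤ A := by positivity
  set r := θ / (2 - θ) with hr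
  have hr1 : 1 + r = 4 / (s - 1) := by
    have : s - 1 ≠ 0 := by linarith
    have h2 : 2 - θ = (s - 1) / 2 := by rw [hθ]; ring
    rw [hr, h2, hθ]
    field_simp
    ring
  refine ⟨2 * A * (A / m₀) ^ r, by positivity, fun u t U hU haf n => ?_⟩
  have hL0 : ∀ n, 0 < LL lam n := fun n => by linarith [LL_ge (by linarith : 0 ≤ lam) n]
  have hW : W (gg γ lam) (fun n t => af φ (MM lam) (u t) n) n t
      ≤ A * U * Real.exp (θ * LL lam n) := by
    unfold W
    have h1 : ∀ m ∈ range n, gg γ lam m * af φ (MM lam) (u t) m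
        ≤ γ * K * U * Real.exp (θ * (5 / 6 * LL lam n)) := by
      intro m hm
      have hmn := mem_range.mp hm
      have h2 : LL lam m ≤ 5 / 6 * LL lam n := by
        have h3 : LL lam (m + 1) ≤ LL lam n :=
          LL_mono (by linarith : (0 : ℝ) ≤ lam) (Nat.succ_le_of_lt hmn)
        have h4 := LL_succ lam m
        linarith
      have h3 := (le_abs_self _).trans (haf m)
      unfold gg
      calc γ * Real.exp (5 / 2 * LL lam m) * af φ (MM lam) (u t) m
          ≤ γ * Real.exp (5 / 2 * LL lam m) * (K * U * Real.exp (-(s / 2 * LL lam m))) :=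
            mul_le_mul_of_nonneg_left h3 (by positivity)
        _ = γ * K * U * Real.exp (5 / 2 * LL lam m + -(s / 2 * LL lam m)) := by
            rw [Real.exp_add]; ring
        _ ≤ γ * K * U * Real.exp (θ * (5 / 6 * LL lam n)) := by
            refine mul_le_mul_of_nonneg_left (Real.exp_le_exp.mpr ?_) (by positivity)
            have h5 : 5 / 2 * LL lam m + -(s / 2 * LL lam m) = θ * LL lam m := by rw [hθ]; ring
            rw [h5]
            exact mul_le_mul_of_nonneg_left h2 hθ0.le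
    refine (Finset.sum_le_sum h1).trans ?_
    rw [Finset.sum_const, card_range, nsmul_eq_mul]
    have h6 : (n : ℝ) ≤ 30 / θ * Real.exp (θ / 6 * LL lam n) := by
      have h7 : (n : ℝ) ≤ 5 * LL lam n := by
        have h3 := one_add_mul_le_pow (a := (1 / 5 : ℝ)) (by norm_num) n
        have h4 := pow_le_LL hlam n
        have h5 : (1 + 1 / 5 : ℝ) = 6 / 5 := by norm_num
        rw [h5] at h3
        linarith
      have h8 := Real.add_one_le_exp (θ / 6 * LL lam n)
      rw [div_mul_eq_mul_div, le_div_iff₀ hθ0]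
      nlinarith
    have h7 : Real.exp (θ / 6 * LL lam n) * Real.exp (θ * (5 / 6 * LL lam n))
        = Real.exp (θ * LL lam n) := by
      rw [← Real.exp_add]; congr 1; ring
    calc (n : ℝ) * (γ * K * U * Real.exp (θ * (5 / 6 * LL lam n)))
        ≤ (30 / θ * Real.exp (θ / 6 * LL lam n)) * (γ * K * U * Real.exp (θ * (5 / 6 * LL lam n))) :=
          mul_le_mul_of_nonneg_right h6 (by positivity)
      _ = A * U * (Real.exp (θ / 6 * LL lam n) * Real.exp (θ * (5 / 6 * LL lam n))) := by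
          rw [hA]; ring
      _ = _ := by rw [h7]
  have hmu : muu m₀ lam n = m₀ * Real.exp ((2 - θ) * LL lam n) * Real.exp (θ * LL lam n) := by
    unfold muu
    rw [mul_assoc, ← Real.exp_add]
    congr 2; ring
  have hUp : 0 ≤ U ^ (4 / (s - 1)) := Real.rpow_nonneg hU _
  rcases le_or_gt (A * U) (m₀ * Real.exp ((2 - θ) * LL lam n)) with h1 | h1
  · have h2 := mul_le_mul_of_nonneg_right h1 (Real.exp_pos (θ * LL lam n)).le
    have h3 : 0 ≤ 2 * A * (A / m₀) ^ r * U ^ (4 / (s - 1)) := by positivity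
    linarith
  · have hAU : 0 < A * U := lt_of_le_of_lt (by positivity) h1
    have hU0 : 0 < U := by
      rcases hU.eq_or_lt with e | e
      · rw [← e, mul_zero] at hAU; exact absurd hAU (lt_irrefl _)
      · exact e
    have h2 : Real.exp ((2 - θ) * LL lam n) ≤ A / m₀ * U := by
      rw [div_mul_eq_mul_div, le_div_iff₀ hm₀0]
      linarith
    have h3 : Real.exp (θ * LL lam n) ≤ (A / m₀) ^ r * U ^ r := by
      have h4 : Real.exp (θ * LL lam n) = Real.exp ((2 - θ) * LL lam n) ^ r := by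
        rw [← Real.exp_mul]
        congr 1
        rw [hr]
        field_simp
      rw [h4, ← Real.mul_rpow (by positivity) hU]
      exact Real.rpow_le_rpow (Real.exp_pos _).le h2 (by rw [hr]; positivity)
    have h5 : U * U ^ r = U ^ (4 / (s - 1)) := by
      rw [← hr1, Real.rpow_add hU0, Real.rpow_one]
    have h6 : 0 ≤ muu m₀ lam n := by unfold muu; positivity
    have h7 : A * U * Real.exp (θ * LL lam n) ≤ A * U * ((A / m₀) ^ r * U ^ r) :=
      mul_le_mul_of_nonneg_left h3 hAU.le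
    calc 2 * (W (gg γ lam) (fun n t => af φ (MM lam) (u t) n) n t - muu m₀ lam n)
        ≤ 2 * (A * U * ((A / m₀) ^ r * U ^ r)) := by linarith
      _ = 2 * A * (A / m₀) ^ r * (U * U ^ r) := by ring
      _ = _ := by rw [h5]

/-- the abstract Prodi-Serrin criterion -/
theorem serrin (G : Good φ ρ ψ x₁ ν T lam R c0 vd ks Ns) {Ts : ℝ} {u : ℝ → V → V}
    (hTsT : Ts ≤ T)
    (hsol : ∀ T', 0 ≤ T' → T' < Ts → GSol ν (Fam φ ψ ρ (MM lam) (EE lam)) vd T' u)
    (hbl : ∀ n₀, ∃ t, 0 ≤ t ∧ t < Ts ∧ ∃ n ≥ n₀, muu (ν * dir φ φ / ip φ φ) lam n <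
        W (gg (-hf φ φ / ip φ φ) lam) (fun n t => af φ (MM lam) (u t) n) n t)
    {s K : ℝ} (hs1 : 1 < s) (hs5 : s < 5) (hK : 0 ≤ K) {U : ℝ → ℝ} (hU : ∀ t ∈ Ico 0 Ts, 0 ≤ U t)
    (haf : ∀ t ∈ Ico 0 Ts, ∀ m, |af φ (MM lam) (u t) m| ≤ K * U t * Real.exp (-(s / 2 * LL lam m)))
    {g : ℝ → ℝ} (hg : IntegrableOn g (Ioo 0 Ts)) :
    ∃ t, 0 ≤ t ∧ t < Ts ∧ g t < U t ^ (4 / (s - 1)) := by
  by_contra hcon
  push Not at hcon
  obtain ⟨C, hC, h1⟩ := strain_le G hs1 hs5 hK
  refine no_majorant G hTsT hsol hbl (h := fun t => C * g t) (hg.const_mul C)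
    (fun t ht => mul_nonneg hC ((Real.rpow_nonneg (hU t ht) _).trans (hcon t ht.1 ht.2)))
    (fun n t ht => (h1 u t (U t) (hU t ht) (haf t ht) n).trans
      (mul_le_mul_of_nonneg_left (hcon t ht.1 ht.2) hC))

/-- all the Prodi-Serrin norms diverge -/
theorem serrin_Lq (G : Good φ ρ ψ x₁ ν T lam R c0 vd ks Ns) {Ts : ℝ} {u : ℝ → V → V}
    (hTsT : Ts ≤ T)
    (hsol : ∀ T', 0 ≤ T' → T' < Ts → GSol ν (Fam φ ψ ρ (MM lam) (EE lam)) vd T' u)
    (hbl : ∀ n₀, ∃ t, 0 ≤ t ∧ t < Ts ∧ ∃ n ≥ n₀, muu (ν * dir φ φ / ip φ φ) lam n <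
        W (gg (-hf φ φ / ip φ φ) lam) (fun n t => af φ (MM lam) (u t) n) n t)
    {q : ℝ} (hq : 3 < q) {g : ℝ → ℝ} (hg : IntegrableOn g (Ioo 0 Ts)) :
    ∃ t, 0 ≤ t ∧ t < Ts ∧ g t < (∫ x, ‖u t x‖ ^ q) ^ (2 / (q - 3)) := by
  obtain ⟨K, hK0, hK⟩ := af_Lq G.P lam (q := q) (by linarith)
  have hq0 : 0 < q := by linarith
  have h6 : 6 / q < 2 := by rw [div_lt_iff₀ hq0]; linarith
  have h6' : 0 < 6 / q := by positivity
  obtain ⟨t, ht0, ht, hlt⟩ := serrin G hTsT hsol hbl (s := 3 - 6 / q) (K := K) (by linarith)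
    (by linarith) hK0 (U := fun t => (∫ x, ‖u t x‖ ^ q) ^ (1 / q))
    (fun t _ => Real.rpow_nonneg (integral_nonneg fun x => Real.rpow_nonneg (norm_nonneg _) _) _)
    (fun t ht m => by
      have hT := ((hsol t ht.1 ht.2).mem t ⟨ht.1, le_rfl⟩).1
      exact hK _ hT.cont hT.cs m) hg
  refine ⟨t, ht0, ht, ?_⟩
  beta_reduce at hlt
  rw [← Real.rpow_mul (integral_nonneg fun x => Real.rpow_nonneg (norm_nonneg _) _)] at hlt
  have e : 1 / q * (4 / (3 - 6 / q - 1)) = 2 / (q - 3) := by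
    have h3 : q - 3 ≠ 0 := by linarith
    have h4 : 3 - 6 / q - 1 = 2 * (q - 3) / q := by field_simp; ring
    rw [h4]
    field_simp
    norm_num
  rwa [e] at hlt

end Pool.Agent.H280R3.M6
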